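import Pool.Agent.H90.LC.Targets

/-!
# Row COR of lcl_modules: infinitely many numbers (helper79)
-/

set_option autoImplicit false

open Pool.Agent.H90.LC

namespace Pool.Agent.H79.LCL

theorem pf_COR (hFIN : T_FIN) : T_COR := by
  obtain ⟨c, hc, N₁, hN⟩ := hFIN
  refine ⟨c, hc, fun N₀ => ?_⟩
  set m : ℝ := max (N₀ : ℝ) (Real.exp (Real.exp 3)) with hm
  set N : ℕ := max N₁ ⌈Real.exp m⌉₊ with hNdef
  obtain ⟨n, h1, h2, h3, h4, h5⟩ := hN N (le_max_left _ _)
  have hexp : Real.exp m ≤ (N : ℝ) := by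
    have h6 : Real.exp m ≤ (⌈Real.exp m⌉₊ : ℝ) := Nat.le_ceil _
    have h7 : ((⌈Real.exp m⌉₊ : ℕ) : ℝ) ≤ (N : ℝ) := by
      exact_mod_cast le_max_right _ _
    linarith
  have hNpos : (0 : ℝ) < N := lt_of_lt_of_le (Real.exp_pos m) hexp
  have hlogN : m ≤ Real.log N := (Real.le_log_iff_exp_le hNpos).2 hexp
  have hnm : m ≤ (n : ℝ) := hlogN.trans h1
  have hn0 : (N₀ : ℝ) ≤ n := (le_max_left _ _).trans hnm
  have hne : Real.exp (Real.exp 3) ≤ (n : ℝ) := (le_max_right _ _).trans hnm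
  have hnpos : (0 : ℝ) < n := lt_of_lt_of_le (Real.exp_pos _) hne
  have hnN : (n : ℝ) ≤ N := by exact_mod_cast h2
  refine ⟨n, by exact_mod_cast hn0, h3, h4, fun x₁ x₂ x₃ hx => ?_⟩
  refine lt_of_le_of_lt ?_ (h5 x₁ x₂ x₃ hx)
  have l1 : Real.exp 3 ≤ Real.log n := (Real.le_log_iff_exp_le hnpos).2 hne
  have l1p : 0 < Real.log n := lt_of_lt_of_le (Real.exp_pos _) l1
  have l2 : Real.log n ≤ Real.log N := Real.log_le_log hnpos hnN
  have t1 : (3 : ℝ) ≤ Real.log (Real.log n) := (Real.le_log_iff_exp_le l1p).2 l1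
  have t2 : Real.log (Real.log n) ≤ Real.log (Real.log N) := Real.log_le_log l1p l2
  have he : Real.exp 1 ≤ 3 := by
    have := Real.exp_one_lt_d9
    linarith
  set a := Real.log (Real.log n) with ha
  set b := Real.log (Real.log N) with hb
  have hab := Real.log_div_self_antitoneOn (a := a) (b := b)
    (by show Real.exp 1 ≤ a; linarith) (by show Real.exp 1 ≤ b; linarith) t2
  simp only at hab
  have hla : 0 < Real.log a := Real.log_pos (by linarith)
  have hlb : 0 < Real.log b := Real.log_pos (by linarith)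
  have ha0 : 0 < a := by linarith
  have hb0 : 0 < b := by linarith
  have hq : a / Real.log a ≤ b / Real.log b := by
    have h8 : (Real.log a / a)⁻¹ ≤ (Real.log b / b)⁻¹ := by
      rw [inv_le_inv₀ (div_pos hla ha0) (div_pos hlb hb0)]
      exact hab
    rwa [inv_div, inv_div] at h8
  have hs := Real.sqrt_le_sqrt hq
  have hs0 : 0 ≤ Real.sqrt (a / Real.log a) := Real.sqrt_nonneg _
  have hcl : c * Real.log n ≤ c * Real.log N := mul_le_mul_of_nonneg_left l2 hc.le
  have hcl0 : 0 ≤ c * Real.log N := mul_nonneg hc.le (l1p.le.trans l2)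
  exact mul_le_mul hcl hs hs0 hcl0

end Pool.Agent.H79.LCL
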